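import Pool.Agent.W425.PZ.Pole
import Pool.Agent.W427.SMC.Fin1

set_option autoImplicit false
set_option linter.unusedSectionVars false

/-! Poles of the zeta function are poles of the Poincare series, with the orders. -/

namespace Pool.Agent.R852

open Filter Topology
open Pool.Agent.W206.CU
open Pool.Agent.W425.PZ (gen_eval)
open Pool.Agent.W427.SMC (igusaZeta pw mero_bound)

/-- Cancel the common factors `X - T₀`. -/
theorem reduce (P : PowerSeries ℂ) (T₀ : ℂ) (B : Polynomial ℂ) (hB : B.eval T₀ ≠ 0) :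
    ∀ (r : ℕ) (A : Polynomial ℂ),
      (((Polynomial.X - Polynomial.C T₀) ^ r * B : Polynomial ℂ) : PowerSeries ℂ) * P =
        (A : PowerSeries ℂ) →
      ∃ (μ : ℕ) (A' : Polynomial ℂ), (μ = 0 ∨ A'.eval T₀ ≠ 0) ∧
        (((Polynomial.X - Polynomial.C T₀) ^ μ * B : Polynomial ℂ) : PowerSeries ℂ) * P =
          (A' : PowerSeries ℂ) := by
  intro r
  induction r with
  | zero => exact fun A h => ⟨0, A, Or.inl rfl, h⟩
  | succ r ih =>
    intro A h
    by_cases hA : A.eval T₀ = 0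
    · obtain ⟨A1, rfl⟩ := Polynomial.dvd_iff_isRoot.2 hA
      apply ih A1
      have hX : ((Polynomial.X - Polynomial.C T₀ : Polynomial ℂ) : PowerSeries ℂ) ≠ 0 := by
        intro h0
        have h1 : (Polynomial.X - Polynomial.C T₀ : Polynomial ℂ) = 0 := by
          apply Polynomial.coe_injective ℂ
          rw [h0, Polynomial.coe_zero]
        exact Polynomial.X_sub_C_ne_zero T₀ h1
      apply mul_left_cancel₀ hX
      rw [← mul_assoc, ← Polynomial.coe_mul, ← Polynomial.coe_mul, ← h]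
      congr 2
      ring
    · exact ⟨r + 1, A, Or.inr hA, h⟩

variable (p : ℕ) [hp : Fact p.Prime]

lemma pw_eq (s : ℂ) : pw p s = (p : ℂ) ^ (-s) := by
  unfold pw
  rw [Complex.cpow_def_of_ne_zero (by exact_mod_cast hp.out.ne_zero), ← Complex.natCast_log]
  congr 1
  ring

/-- **Poles of the zeta function are poles of the Poincare series, with the orders.** -/
theorem poincare_of_pole {V : Type} [Fintype V] (F : MvPolynomial V ℤ)
    {D A : Polynomial ℂ} (hD : D ≠ 0)
    (h : (D : PowerSeries ℂ) * poincare p F = (A : PowerSeries ℂ)) {Z : ℂ → ℂ}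
    (hZ : MeromorphicOn Z Set.univ) (hZi : ∀ s : ℂ, 0 < s.re → Z s = igusaZeta p F s) (s₀ : ℂ)
    (hs₀ : meromorphicOrderAt Z s₀ < 0) :
    ∃ μ : ℕ, 0 < μ ∧ IsPoleOfOrder (poincare p F) ((p : ℂ) ^ (-s₀)) μ ∧
      ((-(μ : ℤ) : ℤ) : WithTop ℤ) ≤ meromorphicOrderAt Z s₀ ∧
      -Real.log ‖(p : ℂ) ^ (-s₀)‖ / Real.log p = s₀.re := by
  classical
  set T₀ : ℂ := (p : ℂ) ^ (-s₀) with hT₀
  have hT0 : T₀ ≠ 0 := T_ne_zero p s₀
  obtain ⟨B, hB, hnd⟩ := Polynomial.exists_eq_pow_rootMultiplicity_mul_and_not_dvd D hD T₀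
  have hB0 : B.eval T₀ ≠ 0 := fun h0 => hnd (Polynomial.dvd_iff_isRoot.2 h0)
  obtain ⟨μ, A', hμ, hA'⟩ := reduce (poincare p F) T₀ B hB0 (D.rootMultiplicity T₀) A
    (by rw [← hB]; exact h)
  set D' : Polynomial ℂ := (Polynomial.X - Polynomial.C T₀) ^ μ * B with hD'
  have hBne : B ≠ 0 := by
    rintro rfl
    rw [Polynomial.eval_zero] at hB0
    exact hB0 rfl
  have hD'0 : D' ≠ 0 := mul_ne_zero (pow_ne_zero _ (Polynomial.X_sub_C_ne_zero _)) hBne
  have hR0 : Polynomial.X * D' ≠ 0 := mul_ne_zero Polynomial.X_ne_zero hD'0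
  have hmult : (Polynomial.X * D').rootMultiplicity (pw p s₀) = μ := by
    rw [pw_eq, ← hT₀, Polynomial.rootMultiplicity_mul hR0, hD',
      Polynomial.rootMultiplicity_mul (by rw [← hD']; exact hD'0),
      Polynomial.rootMultiplicity_X_sub_C_pow, Polynomial.rootMultiplicity_eq_zero hB0,
      Polynomial.rootMultiplicity_eq_zero]
    · ring
    · rw [Polynomial.IsRoot, Polynomial.eval_X]
      exact hT0
  have hkey := mero_bound p (Polynomial.X * D')
    (D' - (1 - Polynomial.X) * A') hR0 Z hZ (by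
      intro s hs
      have hs' : 0 < (s : ℂ).re := by rwa [Complex.ofReal_re]
      have hT := norm_T_lt p hs'
      have e1 := gen_igusa p F hs' hT
      have e2 := gen_eval p F hA' hT
      rw [hZi _ hs', pw_eq]
      simp only [Polynomial.eval_mul, Polynomial.eval_X, Polynomial.eval_sub, Polynomial.eval_one]
      linear_combination D'.eval ((p : ℂ) ^ (-(s : ℂ))) * e1 - (1 - (p : ℂ) ^ (-(s : ℂ))) * e2) s₀
  rw [hmult] at hkey
  have hμ0 : 0 < μ := by
    have h1 := lt_of_le_of_lt hkey hs₀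
    have h2 : (-(μ : ℤ) : ℤ) < 0 := by exact_mod_cast h1
    omega
  refine ⟨μ, hμ0, ⟨A', B, ?_, hB0, hA'⟩, hkey, ?_⟩
  · rcases hμ with h1 | h1
    · omega
    · exact h1
  · rw [hT₀, norm_T, Real.log_rpow (by exact_mod_cast hp.out.pos)]
    have hlp : Real.log p ≠ 0 := (Real.log_pos (by exact_mod_cast hp.out.one_lt)).ne'
    field_simp

end Pool.Agent.R852
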