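import Pool.Agent.TH216.EP.GenF
import Pool.Agent.R852.Conv

set_option autoImplicit false
set_option linter.unusedVariables false

/-! Rationality of the Poincare series of generic polynomials, every prime. -/

namespace Pool.Agent.R852

open MvPolynomial Pool.Agent.TH216.MF Pool.Agent.TH216.EP
open Pool.Agent.H628R4.TP Pool.Agent.W425.MM Pool.Agent.W425.GN
open Pool.Agent.W425.ND (spa)
open Pool.Agent.W426.SM (gord IsRay face)
open Pool.Agent.W206.CU (poincare IsPoleOfOrder pole_ne_zero)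
open Pool.Agent.W425.SV (NP)
open Pool.Agent.W425.PN (qpoly idn_of Idn)
open Pool.Agent.W427.SMC (igusaZeta)

variable {r N k n : ℕ}

/-- The Poincare series is rational. -/
def Rational (p : ℕ) {V : Type} (F : MvPolynomial V ℤ) : Prop :=
  ∃ D A : Polynomial ℂ, D ≠ 0 ∧ (D : PowerSeries ℂ) * poincare p F = (A : PowerSeries ℂ)

/-- Rationality, nondegenerate polynomials. -/
theorem rat_nd {p : ℕ} (hk : 0 < k) (m : Fin k → Fin n → ℕ) (c : Fin k → ℤ) (hc : ∀ j, c j ≠ 0)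
    (hnd : ∀ u : Fin n → ℕ, Idn m (fun j => (c j : ℚ))
      (Finset.univ.filter fun j => ∑ i, u i * m j i = gord m u)) (f : MvPolynomial (Fin n) ℤ)
    (hf : f = ∑ j, MvPolynomial.C (c j) * ∏ i, MvPolynomial.X i ^ m j i) (hpp : p.Prime) :
    Rational p f := by
  classical
  have : Fact p.Prime := ⟨hpp⟩
  have hp0 : (p : ℂ) ≠ 0 := by exact_mod_cast hpp.ne_zero
  obtain ⟨κ, hκ, hκR⟩ := poincare_nd (p := p) hk m c hc hnd f hf
  obtain ⟨E, Q, hQ, hQI⟩ := stepC p hpp.two_le m 0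
  have hZ : Z p m (Polynomial.aeval (tau k) ((Polynomial.X - Polynomial.C 0) ^ E * Q) * κ) := by
    rw [mul_comm]
    exact Z.of_I1 hpp.two_le hQI κ
  obtain ⟨R, hR⟩ := hκR _ hZ
  refine ⟨_, R, ?_, hR⟩
  have hQ0 : Q ≠ 0 := by
    rintro rfl
    simp at hQ
  refine mul_ne_zero (mul_ne_zero (pow_ne_zero _ (Polynomial.X_sub_C_ne_zero _)) hQ0) ?_
  intro h0
  have h1 := congrArg (Polynomial.eval 0) h0
  simp at h1

/-- Rationality, generic coefficients. -/
theorem gen_rat (hr : 0 < r) (v : Fin r → Fin N → ℕ) (hv : Function.Injective v)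
    (h : MvPolynomial (Fin N) ℤ) (hh : ∀ w ∈ h.support, NP v w) :
    ∃ g : MvPolynomial (Fin r) ℚ, g ≠ 0 ∧ ∀ c : Fin r → ℤ,
      eval (fun j => (c j : ℚ)) g ≠ 0 → ∀ p : ℕ, p.Prime → Rational p (spa v c + h) := by
  classical
  have hne : NeZero r := ⟨by omega⟩
  obtain ⟨g2, hg2, h2⟩ := gen_nonDF pF4 hr v (weZ h) (we_npZ v h hh)
    (fun l => ((wcZ h l : ℤ) : ℚ))
  have hg3 : (∏ j : Fin r, (X j : MvPolynomial (Fin r) ℚ)) ≠ 0 :=
    Finset.prod_ne_zero_iff.2 fun j _ => X_ne_zero j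
  refine ⟨g2 * ∏ j : Fin r, (X j : MvPolynomial (Fin r) ℚ),
    mul_ne_zero hg2 hg3, fun c hc'' p hpp => ?_⟩
  set cQ : Fin r → ℚ := fun j => (c j : ℚ) with hcQ
  rw [map_mul] at hc''
  have hc' := left_ne_zero_of_mul hc''
  have hcne : ∀ j, c j ≠ 0 := by
    have h5 := right_ne_zero_of_mul hc''
    rw [map_prod] at h5
    intro j
    have h6 := Finset.prod_ne_zero_iff.1 h5 j (Finset.mem_univ j)
    rw [eval_X] at h6
    intro h7
    apply h6
    simp only [hcQ]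
    rw [h7]
    rfl
  have hc : aeval (fun j => ((cQ j : ℚ) : ℂ)) g2 ≠ 0 := by
    have h0 : aeval (fun j => ((cQ j : ℚ) : ℂ)) g2 =
        ((eval cQ g2 : ℚ) : ℂ) := by
      have h5 := aeval_algebraMap_apply ℂ cQ g2
      exact h5
    rw [h0]
    exact_mod_cast hc'
  have hnd := h2 _ hc
  set m : Fin (r + h.support.card) → Fin N → ℕ := Fin.append v (weZ h) with hm
  set cc : Fin (r + h.support.card) → ℤ := Fin.append c (wcZ h) with hcc
  have hcast : (fun j => ((cc j : ℤ) : ℚ)) = Fin.append cQ (fun l => ((wcZ h l : ℤ) : ℚ)) :=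
    append_map (fun q : ℤ => (q : ℚ)) c (wcZ h)
  have hnq : NonD m (fun j => algebraMap ℚ ℂ ((cc j : ℤ) : ℚ)) := by
    have h3 := append_map (fun q : ℚ => (q : ℂ)) cQ (fun l => ((wcZ h l : ℤ) : ℚ))
    have h4 : (fun j => algebraMap ℚ ℂ ((cc j : ℤ) : ℚ)) =
        fun j => (((Fin.append cQ (fun l => ((wcZ h l : ℤ) : ℚ)) j : ℚ)) : ℂ) := by
      funext j
      rw [← hcast]
      rfl
    rw [h4, h3]
    exact hnd
  have hid : ∀ u : Fin N → ℕ, Idn m (fun j => ((cc j : ℤ) : ℚ))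
      (Finset.univ.filter fun j => ∑ i, u i * m j i = gord m u) := fun u =>
    idn_of m (fun j => ((cc j : ℤ) : ℚ)) hnq u
  have hccne : ∀ j, cc j ≠ 0 := by
    intro j
    refine Fin.addCases (fun j => ?_) (fun l => ?_) j
    · rw [hcc, Fin.append_left]; exact hcne j
    · rw [hcc, Fin.append_right]
      exact mem_support_iff.1 (h.support.equivFin.symm l).2
  have hf : spa v c + h = ∑ j, MvPolynomial.C (cc j) * ∏ i, MvPolynomial.X i ^ m j i := by
    rw [Fin.sum_univ_add]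
    simp only [hm, hcc, Fin.append_left, Fin.append_right]
    rw [← h_eqZ h]
    rfl
  have hk : 0 < r + h.support.card := by omega
  exact rat_nd hk m cc hccne hid _ hf hpp

/-- **The orders of the poles of the zeta functions, generic coefficients, every prime.** -/
theorem genZE (hr : 0 < r)
    (v : Fin r → Fin N → ℕ) (hv : Function.Injective v) (hv0 : ∀ j, v j ≠ 0)
    (h : MvPolynomial (Fin N) ℤ) (hh : ∀ w ∈ h.support, NP v w) :
    ∃ g : MvPolynomial (Fin r) ℚ, g ≠ 0 ∧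
      ∀ c : Fin r → ℤ, MvPolynomial.eval (fun j => (c j : ℚ)) g ≠ 0 →
      ∀ (p : ℕ) [Fact p.Prime], ∀ Z : ℂ → ℂ, MeromorphicOn Z Set.univ →
        (∀ s : ℂ, 0 < s.re → Z s = igusaZeta p (spa v c + h) s) →
        ∀ s₀ : ℂ, meromorphicOrderAt Z s₀ < 0 → ∀ b : Polynomial ℂ, b ≠ 0 →
          IsBFunction (MvPolynomial.map (Int.castRingHom ℂ) (spa v c + h)) b →
          ∃ σ : ℚ, s₀.re = -(σ : ℝ) ∧
            (LevOK v h σ → b.eval (s₀.re : ℂ) = 0) ∧
            (HypS (Fin.append v (ke v h)) (σ : ℝ) →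
              ((-(b.rootMultiplicity ((s₀.re : ℝ) : ℂ) : ℤ) : ℤ) : WithTop ℤ) ≤
                meromorphicOrderAt Z s₀) := by
  obtain ⟨g1, hg1, h1⟩ := genFE hr v hv hv0 h hh
  obtain ⟨g2, hg2, h2⟩ := gen_rat hr v hv h hh
  refine ⟨g1 * g2, mul_ne_zero hg1 hg2, fun c hc p hp Z hZ hZi s₀ hs₀ b hb0 hb => ?_⟩
  rw [map_mul] at hc
  obtain ⟨D, A, hD, hDA⟩ := h2 c (right_ne_zero_of_mul hc) p hp.out
  obtain ⟨μ, hμ, hP, hle, hre⟩ := poincare_of_pole p _ hD hDA hZ hZi s₀ hs₀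
  obtain ⟨σ, h3, h4, h5⟩ := h1 c (left_ne_zero_of_mul hc) p hp.out _ μ hμ hP b hb0 hb
  rw [hre] at h3 h4 h5
  refine ⟨σ, h3, h4, fun hS => le_trans ?_ hle⟩
  have h6 := h5 hS
  have h7 : (-(b.rootMultiplicity ((s₀.re : ℝ) : ℂ) : ℤ) : ℤ) ≤ -(μ : ℤ) := by
    have : (μ : ℤ) ≤ (b.rootMultiplicity ((s₀.re : ℝ) : ℂ) : ℤ) := by exact_mod_cast h6
    linarith
  exact_mod_cast h7

end Pool.Agent.R852
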