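import Pool.Agent.TH216.MF.HDM
import Pool.Agent.TH216.HDF
import Pool.Agent.R852.GenRat

set_option autoImplicit false
set_option linter.unusedVariables false

/-! The conditions on the Newton polyhedron, and both parts of the strong monodromy conjecture for
generic coefficients and every prime. -/

namespace Pool.Agent.R852

open Pool.Agent.W426.SM (gord IsRay face)
open Pool.Agent.W425.BF (B1)
open Pool.Agent.TH216.MF
open Pool.Agent.TH216.HDF
open Pool.Agent.TH216.HD (InPoly InHull ordA lev NonB1)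
open Pool.Agent.TH216.EP (LevOK)
open Pool.Agent.W425.ND (spa)
open Pool.Agent.W425.SV (NP)
open Pool.Agent.W425.MM (NonB)
open Pool.Agent.H628R4.TP
open Pool.Agent.W427.SMC (igusaZeta)

variable {r N : ℕ}

/-- **From the condition on the faces to the criterion.** -/
theorem hypS_of_locF (hr : 0 < r) (v : Fin r → Fin N → ℕ) (σ : ℚ)
    (hL : LocF v σ) : HypS v (σ : ℝ) := by
  classical
  intro A Z hne hconst hprem
  by_cases hsim : Forced v A Z
  · exact Or.inl hsim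
  right
  have hray : ∀ (A' : Finset (Fin N)) (Z' : Finset (Fin r)), A' ⊆ A → Z' ⊆ Z →
      (Pt v A' Z').Nonempty → ∃ (a : Fin N → ℚ) (b : Fin N → ℕ), a ∈ Pt v A' Z' ∧
        (∀ i, b i = 0 ↔ a i = 0) ∧ RayAt v A Zᶜ b ∧
        (∀ j, face v b j ↔ ∑ i, a i * (v j i : ℚ) = 1) := by
    intro A' Z' hA' hZ' hne'
    obtain ⟨a, b, h1, h2, h3, h4, h5, h6⟩ := ray_of_vertex hr v A' Z' hne'
    refine ⟨a, b, h1, h2, ⟨h3, h4, fun i hi => ?_, fun j hj => ?_⟩, h5⟩
    · exact (h2 i).2 (h1.2.1 i fun h => hi (hA' h))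
    · refine (h5 j).2 (h1.2.2.2 j fun h => ?_)
      exact (Finset.mem_compl.1 hj) (hZ' h)
  -- all the rays are at the level
  have hlev : ∀ b, RayAt v A Zᶜ b → Pool.Agent.TH216.HD.lev v b = σ := by
    rintro b ⟨h1, h2, h3, h4⟩
    have hg : (gord v b : ℚ) ≠ 0 := by
      have : (0 : ℕ) < gord v b := h2
      exact_mod_cast this.ne'
    have hmem : (fun i => (b i : ℚ) / gord v b) ∈ Pt v A Z := by
      refine ⟨fun i => by positivity, fun i hi => ?_, fun j => ?_, fun j hj => ?_⟩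
      · show (b i : ℚ) / gord v b = 0
        rw [h3 i hi]
        simp
      · have h5 := Pool.Agent.W803.SM.gord_le v b j
        have e : ∑ i, (b i : ℚ) / gord v b * (v j i : ℚ) =
            ((∑ i, b i * v j i : ℕ) : ℚ) / gord v b := by
          push_cast
          rw [Finset.sum_div]
          exact Finset.sum_congr rfl fun i _ => by ring
        show 1 ≤ ∑ i, (b i : ℚ) / gord v b * (v j i : ℚ)
        rw [e, le_div_iff₀ (lt_of_le_of_ne (by positivity) hg.symm), one_mul]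
        exact_mod_cast h5
      · have h5 : ∑ i, b i * v j i = gord v b := h4 j (Finset.mem_compl.2 hj)
        have e : ∑ i, (b i : ℚ) / gord v b * (v j i : ℚ) =
            ((∑ i, b i * v j i : ℕ) : ℚ) / gord v b := by
          push_cast
          rw [Finset.sum_div]
          exact Finset.sum_congr rfl fun i _ => by ring
        show ∑ i, (b i : ℚ) / gord v b * (v j i : ℚ) = 1
        rw [e, h5, div_self hg]
    have h6 := hconst _ hmem
    have h7 : ∑ i, (b i : ℚ) / gord v b = σ := by exact_mod_cast h6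
    unfold Pool.Agent.TH216.HD.lev
    push_cast
    rw [Finset.sum_div]
    exact h7
  have hdep : Dep v A Zᶜ := by
    unfold Forced at hsim
    push Not at hsim
    obtain ⟨w, h1, h2, j, hj⟩ := hsim
    exact ⟨w, ⟨j, hj⟩, fun j hj => h2 j (by simpa using hj), h1⟩
  obtain ⟨i, hi⟩ := hL A Zᶜ hdep (fun i hi => by
      obtain ⟨j, hj, h1⟩ := hprem i hi
      exact ⟨j, Finset.mem_compl.2 hj, h1.ne'⟩)
    (by
      obtain ⟨a, b, -, -, h1, -⟩ := hray A Z (Finset.Subset.refl _) (Finset.Subset.refl _) hne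
      exact ⟨b, h1⟩) hlev
  have hB : ∀ (A' : Finset (Fin N)) (Z' : Finset (Fin r)), A' ⊆ A → Z' ⊆ Z →
      (Pt v A' Z').Nonempty → ∃ (a : Fin N → ℚ) (b : Fin N → ℕ), a ∈ Pt v A' Z' ∧
        (∀ i, b i = 0 ↔ a i = 0) ∧ (∀ j, face v b j ↔ ∑ i, a i * (v j i : ℚ) = 1) ∧
        B1 v i b := by
    intro A' Z' hA' hZ' hne'
    obtain ⟨a, b, h1, h2, h3, h4⟩ := hray A' Z' hA' hZ' hne'
    exact ⟨a, b, h1, h2, h4, hi b h3⟩
  obtain ⟨a1, b1, ha1, hb1, hf1, hB1⟩ := hB A Z (Finset.Subset.refl _)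
    (Finset.Subset.refl _) hne
  obtain ⟨hb1i, j0, hj0f, hj0, hj0u⟩ := hB1
  have hiA : i ∈ A := by
    by_contra hiA
    exact hb1i ((hb1 i).2 (ha1.2.1 i hiA))
  refine ⟨i, hiA, j0, hj0, fun a ha hai => ?_, fun j hj hji a ha haj => ?_⟩
  · obtain ⟨a2, b2, ha2, hb2, hf2, hB2⟩ := hB (A.erase i) Z (Finset.erase_subset _ _)
      (Finset.Subset.refl _) ⟨a, ha.1, fun i' hi' => by
        by_cases h1 : i' = i
        · rw [h1]; exact hai
        · exact ha.2.1 i' fun h2 => hi' (Finset.mem_erase.2 ⟨h1, h2⟩), ha.2.2.1, ha.2.2.2⟩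
    exact hB2.1 ((hb2 i).2 (ha2.2.1 i (Finset.notMem_erase i A)))
  · obtain ⟨a2, b2, ha2, hb2, hf2, hB2⟩ := hB A (Z.erase j) (Finset.Subset.refl _)
      (Finset.erase_subset _ _) ⟨a, ha.1, ha.2.1, ha.2.2.1, fun j' hj' => by
        by_cases h1 : j' = j
        · rw [h1]; exact haj
        · exact ha.2.2.2 j' fun h2 => hj' (Finset.mem_erase.2 ⟨h1, h2⟩)⟩
    obtain ⟨hb2i, j0', hj0f', hj0', hj0u'⟩ := hB2
    obtain ⟨j2, hj2Z, hj2⟩ := hprem i hiA
    have h3 : j2 = j0 := by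
      by_contra h4
      have := hj0u j2 ((hf1 j2).2 (ha1.2.2.2 j2 hj2Z)) h4
      omega
    have h4 : j2 = j0' := by
      by_contra h4
      have := hj0u' j2 ((hf2 j2).2 (ha2.2.2.2 j2 fun h5 => hj2Z (Finset.mem_of_mem_erase h5))) h4
      omega
    have h5 : j = j0' := by
      by_contra h6
      have := hj0u' j ((hf2 j).2 (ha2.2.2.2 j (Finset.notMem_erase j Z))) h6
      omega
    exact hj (h5.trans (h4.symm.trans h3))


/-- all the exponents of `h` are in the hull -/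
theorem hypS_of_hull (hr : 0 < r) (v : Fin r → Fin N → ℕ) (h : MvPolynomial (Fin N) ℤ) (σ : ℚ)
    (hh : ∀ w ∈ h.support, InHull v w) (hL : LocF v σ) : HypS (Fin.append v (ke v h)) (σ : ℝ) := by
  classical
  have h0 : kept v h = ∅ := by
    rw [Finset.eq_empty_iff_forall_notMem]
    intro w hw
    obtain ⟨h1, h2⟩ := (mem_kept v h w).1 hw
    exact h2 ((Pool.Agent.TH216.HD.inC_iff v w).2 (hh w h1))
  have key : ∀ S : Finset (Fin N →₀ ℕ), S = ∅ →
      HypS (Fin.append v (fun (l : Fin S.card) i => (S.equivFin.symm l).1 i)) (σ : ℝ) := by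
    intro S hS
    subst hS
    have h1 : Fin.append v (fun (l : Fin (∅ : Finset (Fin N →₀ ℕ)).card) i =>
        ((∅ : Finset (Fin N →₀ ℕ)).equivFin.symm l).1 i) = v := by
      have h2 := Fin.append_right_nil v (fun (l : Fin (∅ : Finset (Fin N →₀ ℕ)).card) i =>
        ((∅ : Finset (Fin N →₀ ℕ)).equivFin.symm l).1 i) (by simp)
      rw [h2]
      rfl
    rw [h1]
    exact hypS_of_locF hr v σ hL
  exact key _ h0

/-- The condition on the candidate pole `-σ` for the orders: `LocS`, or `LocF` if all the exponents of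
`h` are in the convex hull of the `v j`. -/
def SimpleAt (v : Fin r → Fin N → ℕ) (h : MvPolynomial (Fin N) ℤ) (σ : ℚ) : Prop :=
  Pool.Agent.TH216.HD.LocS v h σ ∨ ((∀ w ∈ h.support, InHull v w) ∧ LocF v σ)

theorem hypS_of_simpleAt (hr : 0 < r) (v : Fin r → Fin N → ℕ) (h : MvPolynomial (Fin N) ℤ)
    (hh : ∀ w ∈ h.support, NP v w) (σ : ℚ) (hS : SimpleAt v h σ) :
    HypS (Fin.append v (ke v h)) (σ : ℝ) := by
  rcases hS with h1 | ⟨h1, h2⟩
  · exact hypS_of_locS hr v h hh σ ((Pool.Agent.TH216.HD.locS_iff v h σ).2 h1)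
  · exact hypS_of_hull hr v h σ h1 h2

/-- **Both parts of the strong monodromy conjecture, generic coefficients, every prime.** -/
theorem mainA (hr : 0 < r) (v : Fin r → Fin N → ℕ) (hv : Function.Injective v)
    (hv0 : ∀ j, v j ≠ 0) (h : MvPolynomial (Fin N) ℤ) (hh : ∀ w ∈ h.support, InPoly v w) :
    ∃ g : MvPolynomial (Fin r) ℚ, g ≠ 0 ∧
      ∀ c : Fin r → ℤ, MvPolynomial.eval (fun j => (c j : ℚ)) g ≠ 0 →
      ∀ (p : ℕ) [Fact p.Prime], ∀ Z : ℂ → ℂ, MeromorphicOn Z Set.univ →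
        (∀ s : ℂ, 0 < s.re → Z s = igusaZeta p (spa v c + h) s) →
        ∀ s₀ : ℂ, meromorphicOrderAt Z s₀ < 0 → ∀ b : Polynomial ℂ, b ≠ 0 →
          IsBFunction (MvPolynomial.map (Int.castRingHom ℂ) (spa v c + h)) b →
          ∃ σ : ℚ, s₀.re = -(σ : ℝ) ∧
            ((σ = 1 ∨ (∃ a : Fin N → ℕ, 0 < ordA v a ∧ NonB1 v False a ∧ lev v a = σ) ∨
              SimpleAt v h σ) → b.eval (s₀.re : ℂ) = 0) ∧
            (SimpleAt v h σ → ((-(b.rootMultiplicity (s₀.re : ℂ) : ℤ) : ℤ) : WithTop ℤ) ≤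
              meromorphicOrderAt Z s₀) := by
  obtain ⟨g, hg, hgc⟩ := genZE hr v hv hv0 h hh
  refine ⟨g, hg, fun c hc p hp Z hZ hZi s₀ hs₀ b hb0 hb => ?_⟩
  obtain ⟨σ, h1, h2, h3⟩ := hgc c hc p Z hZ hZi s₀ hs₀ b hb0 hb
  refine ⟨σ, h1, fun h4 => h2 fun _ => ?_, fun h4 => h3 (hypS_of_simpleAt hr v h hh σ h4)⟩
  rcases h4 with h4 | h4 | h4
  · exact Or.inl h4
  · exact Or.inr (Or.inl h4)
  · exact Or.inr (Or.inr (hypS_of_simpleAt hr v h hh σ h4))

end Pool.Agent.R852
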