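import Pool.Agent.R852.FinA

set_option autoImplicit false
set_option linter.unusedVariables false

/-! # The Poincare series, generic coefficients, every prime -/

namespace Pool.Agent.R852

open Pool.Agent.W206.CU Pool.Agent.TH216.EP
open Pool.Agent.TH216.HD (InPoly InHull ordA lev NonB1)
open Pool.Agent.W425.ND (spa)
open Pool.Agent.H628R4.TP

variable {r N : ℕ}

theorem mainP (hr : 0 < r) (v : Fin r → Fin N → ℕ) (hv : Function.Injective v)
    (hv0 : ∀ j, v j ≠ 0) (h : MvPolynomial (Fin N) ℤ) (hh : ∀ w ∈ h.support, InPoly v w) :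
    ∃ g : MvPolynomial (Fin r) ℚ, g ≠ 0 ∧
      ∀ c : Fin r → ℤ, MvPolynomial.eval (fun j => (c j : ℚ)) g ≠ 0 →
      ∀ (p : ℕ) [Fact p.Prime], Rational p (spa v c + h) ∧
        ∀ (T₀ : ℂ) (m : ℕ), 0 < m → IsPoleOfOrder (poincare p (spa v c + h)) T₀ m →
        ∀ b : Polynomial ℂ, b ≠ 0 →
          IsBFunction (MvPolynomial.map (Int.castRingHom ℂ) (spa v c + h)) b →
          ∃ σ : ℚ, -Real.log ‖T₀‖ / Real.log p = -(σ : ℝ) ∧
            ((σ = 1 ∨ (∃ a : Fin N → ℕ, 0 < ordA v a ∧ NonB1 v False a ∧ lev v a = σ) ∨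
              SimpleAt v h σ) → b.eval ((-Real.log ‖T₀‖ / Real.log p : ℝ) : ℂ) = 0) ∧
            (SimpleAt v h σ →
              m ≤ b.rootMultiplicity ((-Real.log ‖T₀‖ / Real.log p : ℝ) : ℂ)) := by
  obtain ⟨g1, hg1, h1⟩ := genFE hr v hv hv0 h hh
  obtain ⟨g2, hg2, h2⟩ := gen_rat hr v hv h hh
  refine ⟨g1 * g2, mul_ne_zero hg1 hg2, fun c hc p hp => ?_⟩
  rw [map_mul] at hc
  refine ⟨h2 c (right_ne_zero_of_mul hc) p hp.out, fun T₀ m hm hP b hb0 hb => ?_⟩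
  obtain ⟨σ, h3, h4, h5⟩ := h1 c (left_ne_zero_of_mul hc) p hp.out _ m hm hP b hb0 hb
  refine ⟨σ, h3, fun h6 => h4 fun _ => ?_, fun h6 => h5 (hypS_of_simpleAt hr v h hh σ h6)⟩
  rcases h6 with h6 | h6 | h6
  · exact Or.inl h6
  · exact Or.inr (Or.inl h6)
  · exact Or.inr (Or.inr (hypS_of_simpleAt hr v h hh σ h6))

end Pool.Agent.R852
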